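import Pool.Agent.CVA.Defs
import Pool.Agent.CVA.Core

namespace Pool.Agent.Results.MP_61e712_co.AlgebraicArrays

open Pool.Agent.CVA

/-- (1) Every Costas array of order `m ≥ 576 r + 864` has a distance vector in common with every
array of order `n ≥ m` that is, up to `r` dots, a window of a periodic Golomb array or of a periodic
Welch array or of the transpose of a periodic Welch array.
(2) In particular every Costas array of order `864 ≤ m ≤ q - 2` has a distance vector in common with
every Golomb array of order `q - 2`. -/
theorem result :
    (∀ (r m n : ℕ) (f : Equiv.Perm (Fin m)) (g : Equiv.Perm (Fin n)),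
      576 * r + 864 ≤ m → m ≤ n → IsCostas f →
      (NearGolomb r g ∨ NearWelch r g ∨ NearWelch r g.symm) →
      (distanceVectors f ∩ distanceVectors g).Nonempty) ∧
    (∀ (F : Type) [Field F] [Fintype F] (α β : F) (g : Equiv.Perm (Fin (Fintype.card F - 2)))
      (m : ℕ) (f : Equiv.Perm (Fin m)), IsGolomb F α β g → 864 ≤ m → m ≤ Fintype.card F - 2 →
      IsCostas f → (distanceVectors f ∩ distanceVectors g).Nonempty) := by
  constructor
  · intro r m n f g hm hmn hf hg
    rcases hg with hg | hg | hg
    · exact golomb_common hf hm hmn hg
    · exact welch_common hf hm hmn hg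
    · exact common_of_symm (welch_common (isCostas_symm hf) hm hmn hg)
  · intro F _ _ α β g m f hg hm hmn hf
    exact golomb_common hf (r := 0) (by omega) hmn (near_of_golomb hg)

end Pool.Agent.Results.MP_61e712_co.AlgebraicArrays
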