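import Mathlib

/-!
# Common distance vectors of two Costas arrays of orders `m ≤ n < m² - 6 m^{7/4}`
-/

namespace Pool.Agent.Results.MP_61e712_co.QuadraticRange

open Finset

/-- `f` is a Costas permutation of order `n` (rows and columns are indexed by `0, …, n - 1`):
the vectors `(j - i, f j - f i)`, `i < j`, are pairwise distinct. -/
def IsCostas {n : ℕ} (f : Equiv.Perm (Fin n)) : Prop :=
  ∀ i j k l : Fin n, i < j → k < l →
    (((j : ℕ) : ℤ) - ((i : ℕ) : ℤ), ((f j : ℕ) : ℤ) - ((f i : ℕ) : ℤ)) =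
      (((l : ℕ) : ℤ) - ((k : ℕ) : ℤ), ((f l : ℕ) : ℤ) - ((f k : ℕ) : ℤ)) →
    i = k ∧ j = l

/-- The set of distance vectors `(j - i, f j - f i)`, `i < j`, of a permutation. -/
def distanceVectors {n : ℕ} (f : Equiv.Perm (Fin n)) : Set (ℤ × ℤ) :=
  {v | ∃ i j : Fin n, i < j ∧
    v = (((j : ℕ) : ℤ) - ((i : ℕ) : ℤ), ((f j : ℕ) : ℤ) - ((f i : ℕ) : ℤ))}

/-- Window overlap. -/
def w (u : ℕ) (d : ℤ) : ℤ := max ((u : ℤ) - |d|) 0

lemma w_nonneg (u : ℕ) (d : ℤ) : 0 ≤ w u d := le_max_right _ _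

lemma w_zero (u : ℕ) : w u 0 = u := by simp [w]

lemma w_neg (u : ℕ) (d : ℤ) : w u (-d) = w u d := by simp [w]

/-- Indicator that the window starting at `a` contains `x`. -/
def ind (u : ℕ) (a x : ℤ) : ℤ := if a ≤ x ∧ x < a + u then 1 else 0

lemma sum_ind_mul (u n : ℕ) {x y : ℤ} (hx0 : 0 ≤ x) (hxn : x < n) (_hy0 : 0 ≤ y) (_hyn : y < n) :
    ∑ a ∈ Ioo (-(u : ℤ)) n, ind u a x * ind u a y = w u (x - y) := by
  have h1 : ∀ a ∈ Ioo (-(u : ℤ)) n, ind u a x * ind u a y =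
      if a ∈ Ioc (max x y - u) (min x y) then 1 else 0 := by
    intro a _
    unfold ind
    rw [ite_zero_mul_ite_zero]
    simp only [mul_one]
    congr 1
    simp only [mem_Ioc, eq_iff_iff]
    constructor
    · rintro ⟨⟨h1, h2⟩, h3, h4⟩
      constructor
      · rcases max_cases x y with h | h <;> omega
      · exact le_min h1 h3
    · rintro ⟨h1, h2⟩
      have := le_max_left x y
      have := le_max_right x y
      have := le_min_iff.1 h2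
      omega
  rw [sum_congr rfl h1, sum_ite_mem]
  have h2 : Ioo (-(u : ℤ)) n ∩ Ioc (max x y - u) (min x y) = Ioc (max x y - u) (min x y) := by
    apply inter_eq_right.2
    intro a ha
    simp only [mem_Ioc, mem_Ioo] at ha ⊢
    have := le_max_left x y
    have := le_max_right x y
    have := le_min_iff.1 ha.2
    omega
  rw [h2]
  simp only [sum_const, Int.card_Ioc, nsmul_eq_mul, mul_one]
  unfold w
  rcases le_total x y with h | h
  · rw [max_eq_right h, min_eq_left h, abs_of_nonpos (by omega)]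
    rcases max_cases ((u : ℤ) - -(x - y)) 0 with h' | h' <;> omega
  · rw [max_eq_left h, min_eq_right h, abs_of_nonneg (by omega)]
    rcases max_cases ((u : ℤ) - (x - y)) 0 with h' | h' <;> omega

lemma sum_ind (u n : ℕ) {x : ℤ} (hx0 : 0 ≤ x) (hxn : x < n) :
    ∑ a ∈ Ioo (-(u : ℤ)) n, ind u a x = u := by
  have := sum_ind_mul u n hx0 hxn hx0 hxn
  rw [sub_self, w_zero] at this
  refine Eq.trans ?_ this
  apply sum_congr rfl
  intro a _
  unfold ind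
  split_ifs <;> simp

lemma sum_w (u : ℕ) : ∑ d ∈ Ioo (-(u : ℤ)) u, w u d = (u : ℤ) ^ 2 := by
  induction u with
  | zero => simp
  | succ u ih =>
      rcases Nat.eq_zero_or_pos u with rfl | hu
      · have : Ioo (-((0 + 1 : ℕ) : ℤ)) ((0 + 1 : ℕ) : ℤ) = {0} := by
          ext x; simp; omega
        rw [this, sum_singleton, w_zero]
        norm_num
      have hset : Ioo (-((u + 1 : ℕ) : ℤ)) ((u + 1 : ℕ) : ℤ) =
          insert (-(u : ℤ)) (insert (u : ℤ) (Ioo (-(u : ℤ)) u)) := by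
        ext x
        simp only [mem_Ioo, mem_insert]
        push_cast
        omega
      rw [hset, sum_insert, sum_insert]
      · have h1 : ∀ d ∈ Ioo (-(u : ℤ)) u, w (u + 1) d = w u d + 1 := by
          intro d hd
          rw [mem_Ioo] at hd
          have : |d| < u := abs_lt.2 hd
          unfold w
          rw [max_eq_left (by push_cast; omega), max_eq_left (by omega)]
          push_cast; ring
        rw [sum_congr rfl h1, sum_add_distrib, ih]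
        simp only [sum_const, Int.card_Ioo, nsmul_eq_mul, mul_one]
        have h2 : w (u + 1) (-(u : ℤ)) = 1 := by
          unfold w; rw [abs_neg, abs_of_nonneg (by positivity)]; push_cast; norm_num
        have h3 : w (u + 1) (u : ℤ) = 1 := by
          unfold w; rw [abs_of_nonneg (by positivity)]; push_cast; norm_num
        rw [h2, h3]
        have h4 : (((u : ℤ) - -(u : ℤ) - 1).toNat : ℤ) = 2 * u - 1 := by omega
        rw [h4]; push_cast; ring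
      · simp
      · simp only [mem_insert, mem_Ioo]
        omega

lemma sum_w_erase (u : ℕ) (hu : 0 < u) :
    ∑ d ∈ (Ioo (-(u : ℤ)) u).erase 0, w u d = (u : ℤ) * (u - 1) := by
  have h := sum_w u
  have h0 : (0 : ℤ) ∈ Ioo (-(u : ℤ)) u := by simp; omega
  rw [← add_sum_erase _ _ h0, w_zero] at h
  linarith

/-- The number of dots of `f` in the `u × u` window with corner `x`. -/
def cnt {n : ℕ} (f : Equiv.Perm (Fin n)) (u : ℕ) (x : ℤ × ℤ) : ℤ :=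
  ∑ i : Fin n, ind u x.1 ((i : ℕ) : ℤ) * ind u x.2 ((f i : ℕ) : ℤ)

lemma sum_cnt {n : ℕ} (f : Equiv.Perm (Fin n)) (u : ℕ) :
    ∑ x ∈ Ioo (-(u : ℤ)) n ×ˢ Ioo (-(u : ℤ)) n, cnt f u x = n * (u : ℤ) ^ 2 := by
  unfold cnt
  rw [sum_comm]
  have : ∀ i : Fin n, ∑ x ∈ Ioo (-(u : ℤ)) n ×ˢ Ioo (-(u : ℤ)) n,
      ind u x.1 ((i : ℕ) : ℤ) * ind u x.2 ((f i : ℕ) : ℤ) = (u : ℤ) ^ 2 := by
    intro i
    rw [sum_product]
    simp only
    rw [← sum_mul_sum, sum_ind u n (by positivity) (by exact_mod_cast i.2),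
      sum_ind u n (by positivity) (by exact_mod_cast (f i).2)]
    ring
  rw [sum_congr rfl (fun i _ => this i)]
  simp

lemma sum_cnt_sq {n : ℕ} (f : Equiv.Perm (Fin n)) (u : ℕ) :
    ∑ x ∈ Ioo (-(u : ℤ)) n ×ˢ Ioo (-(u : ℤ)) n, cnt f u x ^ 2 =
      ∑ p : Fin n × Fin n, w u (((p.1 : ℕ) : ℤ) - ((p.2 : ℕ) : ℤ)) *
        w u (((f p.1 : ℕ) : ℤ) - ((f p.2 : ℕ) : ℤ)) := by
  have h1 : ∀ x : ℤ × ℤ, cnt f u x ^ 2 = ∑ p : Fin n × Fin n,
      (ind u x.1 ((p.1 : ℕ) : ℤ) * ind u x.1 ((p.2 : ℕ) : ℤ)) *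
      (ind u x.2 ((f p.1 : ℕ) : ℤ) * ind u x.2 ((f p.2 : ℕ) : ℤ)) := by
    intro x
    unfold cnt
    rw [sq, sum_mul_sum, ← sum_product']
    apply sum_congr rfl
    intro p _
    ring
  rw [sum_congr rfl (fun x _ => h1 x), sum_comm]
  apply sum_congr rfl
  intro p _
  rw [sum_product]
  simp only
  rw [← sum_mul_sum, sum_ind_mul u n (by positivity) (by exact_mod_cast p.1.2) (by positivity)
    (by exact_mod_cast p.2.2), sum_ind_mul u n (by positivity) (by exact_mod_cast (f p.1).2)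
    (by positivity) (by exact_mod_cast (f p.2).2)]

/-- The off-diagonal part of the second moment. -/
def off {n : ℕ} (f : Equiv.Perm (Fin n)) (u : ℕ) : ℤ :=
  ∑ p ∈ (univ : Finset (Fin n)).offDiag, w u (((p.1 : ℕ) : ℤ) - ((p.2 : ℕ) : ℤ)) *
        w u (((f p.1 : ℕ) : ℤ) - ((f p.2 : ℕ) : ℤ))

lemma second_moment {n : ℕ} (f : Equiv.Perm (Fin n)) (u : ℕ) :
    ((n : ℤ) * (u : ℤ) ^ 2) ^ 2 ≤ ((n : ℤ) + u - 1) ^ 2 * (n * (u : ℤ) ^ 2 + off f u) := by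
  rcases Nat.eq_zero_or_pos n with rfl | hn
  · simp [off]
  have h1 := sq_sum_le_card_mul_sum_sq (s := Ioo (-(u : ℤ)) n ×ˢ Ioo (-(u : ℤ)) n) (f := cnt f u)
  rw [sum_cnt, sum_cnt_sq, card_product, Int.card_Ioo] at h1
  have h2 : ∑ p : Fin n × Fin n, w u (((p.1 : ℕ) : ℤ) - ((p.2 : ℕ) : ℤ)) *
        w u (((f p.1 : ℕ) : ℤ) - ((f p.2 : ℕ) : ℤ)) = n * (u : ℤ) ^ 2 + off f u := by
    unfold off
    rw [← univ_product_univ, ← diag_union_offDiag, sum_union (disjoint_diag_offDiag _), sum_diag]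
    simp only [sub_self, w_zero, sum_const, card_univ, Fintype.card_fin, nsmul_eq_mul]
    ring
  rw [h2] at h1
  have h3 : (((((n : ℤ) - -(u : ℤ) - 1).toNat * ((n : ℤ) - -(u : ℤ) - 1).toNat : ℕ)) : ℤ) =
      ((n : ℤ) + u - 1) ^ 2 := by
    rw [Nat.cast_mul]
    have : (((n : ℤ) - -(u : ℤ) - 1).toNat : ℤ) = (n : ℤ) + u - 1 := by omega
    rw [this]; ring
  rw [h3] at h1
  exact h1

/-- The difference map. -/
def dv {n : ℕ} (f : Equiv.Perm (Fin n)) (p : Fin n × Fin n) : ℤ × ℤ :=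
  (((p.1 : ℕ) : ℤ) - ((p.2 : ℕ) : ℤ), ((f p.1 : ℕ) : ℤ) - ((f p.2 : ℕ) : ℤ))

lemma dv_injOn {n : ℕ} {f : Equiv.Perm (Fin n)} (hf : IsCostas f) :
    Set.InjOn (dv f) ((univ : Finset (Fin n)).offDiag : Set (Fin n × Fin n)) := by
  rintro ⟨i, j⟩ hij ⟨k, l⟩ hkl h
  simp only [coe_offDiag, Set.mem_offDiag, ne_eq] at hij hkl
  simp only [dv, Prod.mk.injEq] at h
  rcases lt_or_gt_of_ne hij.2.2 with h1 | h1
  · have h2 : k < l := by
      rw [Fin.lt_def] at h1 ⊢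
      omega
    have := hf i j k l h1 h2 (by rw [Prod.mk.injEq]; constructor <;> linarith)
    rw [this.1, this.2]
  · have h2 : l < k := by
      rw [Fin.lt_def] at h1 ⊢
      omega
    have := hf j i l k h1 h2 (by rw [Prod.mk.injEq]; constructor <;> linarith)
    rw [this.1, this.2]

lemma off_eq {n : ℕ} {f : Equiv.Perm (Fin n)} (hf : IsCostas f) (u : ℕ) :
    off f u = ∑ v ∈ ((univ : Finset (Fin n)).offDiag).image (dv f), w u v.1 * w u v.2 := by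
  rw [sum_image (fun a ha b hb h => dv_injOn hf ha hb h)]
  rfl

lemma mem_image_dv {n : ℕ} {f : Equiv.Perm (Fin n)} {v : ℤ × ℤ}
    (h : v ∈ ((univ : Finset (Fin n)).offDiag).image (dv f)) :
    v.1 ≠ 0 ∧ v.2 ≠ 0 ∧ (v ∈ distanceVectors f ∨ -v ∈ distanceVectors f) := by
  rw [mem_image] at h
  obtain ⟨⟨i, j⟩, hij, rfl⟩ := h
  rw [mem_offDiag] at hij
  have hne : i ≠ j := hij.2.2
  refine ⟨?_, ?_, ?_⟩
  · simp only [dv]
    intro h0
    apply hne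
    ext
    omega
  · simp only [dv]
    intro h0
    apply hne
    apply f.injective
    ext
    omega
  · rcases lt_or_gt_of_ne hne with h1 | h1
    · right
      exact ⟨i, j, h1, by simp [dv]⟩
    · left
      exact ⟨j, i, h1, by simp [dv]⟩

/-- The window inequality for two Costas permutations without a common distance vector. -/
lemma window {m n : ℕ} {f : Equiv.Perm (Fin m)} {g : Equiv.Perm (Fin n)}
    (hf : IsCostas f) (hg : IsCostas g) (hdis : ¬ (distanceVectors f ∩ distanceVectors g).Nonempty)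
    (u : ℕ) (hu : 0 < u) : off f u + off g u ≤ ((u : ℤ) * (u - 1)) ^ 2 := by
  have hD : Disjoint (((univ : Finset (Fin m)).offDiag).image (dv f))
      (((univ : Finset (Fin n)).offDiag).image (dv g)) := by
    rw [disjoint_left]
    intro v hv1 hv2
    obtain ⟨h1, -, h2⟩ := mem_image_dv hv1
    obtain ⟨-, -, h3⟩ := mem_image_dv hv2
    have pos : ∀ {k : ℕ} {h : Equiv.Perm (Fin k)} {v : ℤ × ℤ}, v ∈ distanceVectors h → 0 < v.1 := by
      rintro k h v ⟨i, j, hij, rfl⟩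
      rw [Fin.lt_def] at hij
      simp only
      omega
    rcases h2 with h2 | h2 <;> rcases h3 with h3 | h3
    · exact hdis ⟨v, h2, h3⟩
    · have := pos h2
      have := pos h3
      simp only [Prod.fst_neg] at this
      omega
    · have := pos h2
      have := pos h3
      simp only [Prod.fst_neg] at *
      omega
    · exact hdis ⟨-v, h2, h3⟩
  rw [off_eq hf, off_eq hg, ← sum_union hD]
  have h4 : ∑ v ∈ ((Ioo (-(u : ℤ)) u).erase 0) ×ˢ ((Ioo (-(u : ℤ)) u).erase 0),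
      w u v.1 * w u v.2 = ((u : ℤ) * (u - 1)) ^ 2 := by
    rw [sum_product]
    simp only
    rw [← sum_mul_sum, sum_w_erase u hu, sq]
  rw [← h4, ← sum_filter_ne_zero]
  apply sum_le_sum_of_subset_of_nonneg _
    (fun v _ _ => mul_nonneg (w_nonneg _ _) (w_nonneg _ _))
  intro v hv
  rw [mem_filter] at hv
  obtain ⟨hv, hne⟩ := hv
  have hv' : v.1 ≠ 0 ∧ v.2 ≠ 0 := by
    rw [mem_union] at hv
    rcases hv with hv | hv
    · exact ⟨(mem_image_dv hv).1, (mem_image_dv hv).2.1⟩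
    · exact ⟨(mem_image_dv hv).1, (mem_image_dv hv).2.1⟩
  have key : ∀ d : ℤ, w u d ≠ 0 → d ∈ Ioo (-(u : ℤ)) u := by
    intro d hd
    unfold w at hd
    rw [mem_Ioo, ← abs_lt]
    by_contra hcon
    exact hd (max_eq_right (by omega))
  rw [mem_product, mem_erase, mem_erase]
  exact ⟨⟨hv'.1, key _ (left_ne_zero_of_mul hne)⟩, ⟨hv'.2, key _ (right_ne_zero_of_mul hne)⟩⟩

/-- The window inequality in real form: `s + 1` is the window size. -/
lemma window_real {m n : ℕ} {f : Equiv.Perm (Fin m)} {g : Equiv.Perm (Fin n)}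
    (hf : IsCostas f) (hg : IsCostas g) (hdis : ¬ (distanceVectors f ∩ distanceVectors g).Nonempty)
    (hm : 0 < m) (hn : 0 < n) (s : ℕ) :
    (s : ℝ) ^ 2 * (m : ℝ) ^ 2 / ((m : ℝ) + s) ^ 2 + (s : ℝ) ^ 2 * (n : ℝ) ^ 2 / ((n : ℝ) + s) ^ 2
      ≤ (s : ℝ) ^ 2 + m + n := by
  have h1 := second_moment f (s + 1)
  have h2 := second_moment g (s + 1)
  have h3 := window hf hg hdis (s + 1) (Nat.succ_pos s)
  have hm' : (0 : ℝ) < m := by exact_mod_cast hm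
  have hn' : (0 : ℝ) < n := by exact_mod_cast hn
  have hs' : (0 : ℝ) ≤ s := Nat.cast_nonneg s
  have h1' : ((m : ℝ) * ((s : ℝ) + 1) ^ 2) ^ 2 ≤
      ((m : ℝ) + s) ^ 2 * (m * ((s : ℝ) + 1) ^ 2 + (off f (s + 1) : ℝ)) := by
    have := (Int.cast_le (R := ℝ)).2 h1
    push_cast at this
    rw [show (m : ℝ) + s = m + (s + 1) - 1 by ring]
    exact this
  have h2' : ((n : ℝ) * ((s : ℝ) + 1) ^ 2) ^ 2 ≤
      ((n : ℝ) + s) ^ 2 * (n * ((s : ℝ) + 1) ^ 2 + (off g (s + 1) : ℝ)) := by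
    have := (Int.cast_le (R := ℝ)).2 h2
    push_cast at this
    rw [show (n : ℝ) + s = n + (s + 1) - 1 by ring]
    exact this
  have h3' : (off f (s + 1) : ℝ) + (off g (s + 1) : ℝ) ≤ (((s : ℝ) + 1) * s) ^ 2 := by
    have := (Int.cast_le (R := ℝ)).2 h3
    push_cast at this
    rw [show ((s : ℝ) + 1) * s = (s + 1) * (s + 1 - 1) by ring]
    exact this
  have hu : (0 : ℝ) < ((s : ℝ) + 1) ^ 2 := by positivity
  have h4 : ((m : ℝ) * ((s : ℝ) + 1) ^ 2) ^ 2 / ((m : ℝ) + s) ^ 2 ≤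
      m * ((s : ℝ) + 1) ^ 2 + (off f (s + 1) : ℝ) := by
    rw [div_le_iff₀ (by positivity)]
    linarith
  have h5 : ((n : ℝ) * ((s : ℝ) + 1) ^ 2) ^ 2 / ((n : ℝ) + s) ^ 2 ≤
      n * ((s : ℝ) + 1) ^ 2 + (off g (s + 1) : ℝ) := by
    rw [div_le_iff₀ (by positivity)]
    linarith
  have h6 : ((m : ℝ) * ((s : ℝ) + 1) ^ 2) ^ 2 / ((m : ℝ) + s) ^ 2 =
      ((s : ℝ) + 1) ^ 2 * (((s : ℝ) + 1) ^ 2 * (m : ℝ) ^ 2 / ((m : ℝ) + s) ^ 2) := by ring
  have h7 : ((n : ℝ) * ((s : ℝ) + 1) ^ 2) ^ 2 / ((n : ℝ) + s) ^ 2 =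
      ((s : ℝ) + 1) ^ 2 * (((s : ℝ) + 1) ^ 2 * (n : ℝ) ^ 2 / ((n : ℝ) + s) ^ 2) := by ring
  rw [h6] at h4
  rw [h7] at h5
  have h8 : ((s : ℝ) + 1) ^ 2 * (((s : ℝ) + 1) ^ 2 * (m : ℝ) ^ 2 / ((m : ℝ) + s) ^ 2 +
      ((s : ℝ) + 1) ^ 2 * (n : ℝ) ^ 2 / ((n : ℝ) + s) ^ 2) ≤
      ((s : ℝ) + 1) ^ 2 * ((s : ℝ) ^ 2 + m + n) := by
    nlinarith
  have h9 := le_of_mul_le_mul_left h8 hu
  have h10 : (s : ℝ) ^ 2 ≤ ((s : ℝ) + 1) ^ 2 := by nlinarith
  refine le_trans (add_le_add ?_ ?_) h9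
  · gcongr
  · gcongr

lemma low_bd {M s : ℝ} (hM : 0 < M) (hs : 0 ≤ s) :
    M ^ 2 - 2 * M ^ 3 / (M + s) ≤ s ^ 2 * M ^ 2 / (M + s) ^ 2 := by
  have hMs : 0 < M + s := by linarith
  rw [← sub_nonneg]
  have : s ^ 2 * M ^ 2 / (M + s) ^ 2 - (M ^ 2 - 2 * M ^ 3 / (M + s)) =
      (M ^ 2 / (M + s)) ^ 2 := by
    field_simp
    ring
  rw [this]
  positivity

lemma up_bd {N s : ℝ} (hN : 0 < N) (hs : 0 ≤ s) :
    s ^ 2 - 2 * s ^ 3 / (N + s) ≤ s ^ 2 * N ^ 2 / (N + s) ^ 2 := by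
  have hMs : 0 < N + s := by linarith
  rw [← sub_nonneg]
  have : s ^ 2 * N ^ 2 / (N + s) ^ 2 - (s ^ 2 - 2 * s ^ 3 / (N + s)) =
      (s ^ 2 / (N + s)) ^ 2 := by
    field_simp
    ring
  rw [this]
  positivity

/-- First regime, window size about `M / 4`. -/
lemma regime1 {M N : ℝ} (hM : 1296 < M) (hMN : M ≤ N) (h1 : N ≤ M ^ 2 / 64) :
    ∃ s : ℕ, (s : ℝ) ^ 2 + M + N <
      (s : ℝ) ^ 2 * M ^ 2 / (M + s) ^ 2 + (s : ℝ) ^ 2 * N ^ 2 / (N + s) ^ 2 := by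
  refine ⟨⌈M / 4⌉₊, ?_⟩
  have hs1 : M / 4 ≤ (⌈M / 4⌉₊ : ℝ) := Nat.le_ceil _
  have hs2 : (⌈M / 4⌉₊ : ℝ) < M / 4 + 1 := Nat.ceil_lt_add_one (by positivity)
  set s : ℝ := (⌈M / 4⌉₊ : ℝ) with hs
  have hs0 : 0 ≤ s := by linarith
  have h2 : M / 5 ≤ s * M / (M + s) := by
    rw [le_div_iff₀ (by linarith)]
    nlinarith
  have h3 : s * M / (M + s) ≤ s * N / (N + s) := by
    rw [div_le_div_iff₀ (by linarith) (by linarith)]
    nlinarith [mul_nonneg (mul_nonneg hs0 hs0) (sub_nonneg.2 hMN)]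
  have h4 : s ^ 2 * M ^ 2 / (M + s) ^ 2 = (s * M / (M + s)) ^ 2 := by rw [div_pow, mul_pow]
  have h5 : s ^ 2 * N ^ 2 / (N + s) ^ 2 = (s * N / (N + s)) ^ 2 := by rw [div_pow, mul_pow]
  rw [h4, h5]
  have h6 : (M / 5) ^ 2 ≤ (s * M / (M + s)) ^ 2 := pow_le_pow_left₀ (by positivity) h2 2
  have h7 : (M / 5) ^ 2 ≤ (s * N / (N + s)) ^ 2 :=
    pow_le_pow_left₀ (by positivity) (h2.trans h3) 2
  have h8 : s ^ 2 ≤ (M / 4 + 1) ^ 2 := pow_le_pow_left₀ hs0 hs2.le 2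
  have h9 : 0 < M * (M - 1296) := mul_pos (by linarith) (by linarith)
  have h10 : (M / 4 + 1) ^ 2 + M + M ^ 2 / 64 < (M / 5) ^ 2 + (M / 5) ^ 2 := by nlinarith
  linarith

/-- Second regime, window size about `M`. -/
lemma regime2 {M N : ℝ} (hM : 1296 < M) (h1 : M ^ 2 / 64 ≤ N) (h2 : N ≤ M ^ 2 / 5) :
    ∃ s : ℕ, (s : ℝ) ^ 2 + M + N <
      (s : ℝ) ^ 2 * M ^ 2 / (M + s) ^ 2 + (s : ℝ) ^ 2 * N ^ 2 / (N + s) ^ 2 := by
  have hM0 : 0 < M := by linarith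
  have hN : 0 < N := lt_of_lt_of_le (by positivity) h1
  refine ⟨⌈M⌉₊, ?_⟩
  have hs1 : M ≤ (⌈M⌉₊ : ℝ) := Nat.le_ceil _
  have hs2 : (⌈M⌉₊ : ℝ) < M + 1 := Nat.ceil_lt_add_one (by positivity)
  set s : ℝ := (⌈M⌉₊ : ℝ) with hs
  have hs0 : 0 ≤ s := by linarith
  have h3 : M / 2 ≤ s * M / (M + s) := by
    rw [le_div_iff₀ (by linarith)]
    nlinarith
  have h4 : s ^ 2 * M ^ 2 / (M + s) ^ 2 = (s * M / (M + s)) ^ 2 := by rw [div_pow, mul_pow]
  have h5 : (M / 2) ^ 2 ≤ (s * M / (M + s)) ^ 2 := pow_le_pow_left₀ (by positivity) h3 2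
  have h6 := up_bd hN hs0
  have h7 : s ^ 3 ≤ 2 * M ^ 3 := by
    have h8 : s ≤ (5 / 4) * M := by linarith
    have h9 : s ^ 3 ≤ ((5 / 4) * M) ^ 3 := pow_le_pow_left₀ hs0 h8 3
    have h10 : 0 < M ^ 3 := by positivity
    have h11 : ((5 / 4) * M) ^ 3 = (125 / 64) * M ^ 3 := by ring
    linarith
  have hMM : 0 < M * (M - 1296) := mul_pos hM0 (by linarith)
  have h9 : 0 ≤ (N + M - 20 * M) * (M ^ 2 / 4 - 63 * M - (N + M)) := by
    apply mul_nonneg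
    · nlinarith
    · nlinarith
  have hMMM : 0 < M ^ 2 * (M - 1296) := mul_pos (by positivity) (by linarith)
  have hMN : 0 < M * N := mul_pos hM0 hN
  have h10 : 4 * M ^ 3 < (M ^ 2 / 4 - M - N) * (N + M) := by
    nlinarith
  have h11 : 2 * s ^ 3 / (N + s) < M ^ 2 / 4 - M - N := by
    have h12 : 2 * s ^ 3 / (N + s) ≤ 4 * M ^ 3 / (N + M) := by
      apply div_le_div₀ (by positivity) (by linarith) (by linarith) (by linarith)
    refine lt_of_le_of_lt h12 ?_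
    rw [div_lt_iff₀ (by linarith)]
    exact h10
  rw [h4]
  have h13 : (M / 2) ^ 2 = M ^ 2 / 4 := by ring
  linarith

/-- Third regime, window size about `(3/4) (M^3 N)^{1/4}`. -/
lemma regime3 {r N : ℝ} (hr6 : 6 < r) (hN : 0 < N) (h : N + 6 * r ^ 7 < (r ^ 4) ^ 2)
    (h2 : (r ^ 4) ^ 2 / 5 ≤ N) :
    ∃ s : ℕ, (s : ℝ) ^ 2 + r ^ 4 + N <
      (s : ℝ) ^ 2 * (r ^ 4) ^ 2 / (r ^ 4 + s) ^ 2 + (s : ℝ) ^ 2 * N ^ 2 / (N + s) ^ 2 := by
  obtain ⟨M, hM⟩ : ∃ M : ℝ, M = r ^ 4 := ⟨_, rfl⟩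
  have hr0 : 0 < r := by linarith
  have hM0 : 0 < M := by rw [hM]; positivity
  rw [← hM] at h h2 ⊢
  obtain ⟨q, hq0, hq4⟩ : ∃ q : ℝ, 0 < q ∧ q ^ 4 = M ^ 3 * N := by
    refine ⟨(M ^ 3 * N) ^ (1 / 4 : ℝ), by positivity, ?_⟩
    rw [← Real.rpow_natCast, ← Real.rpow_mul (by positivity)]; norm_num
  have hq : (2 / 3) * r ^ 5 ≤ q := by
    have h3 : ((2 / 3) * r ^ 5) ^ 4 ≤ q ^ 4 := by
      have h4 : ((2 / 3) * r ^ 5) ^ 4 = (16 / 81) * (M ^ 3 * M ^ 2) := by rw [hM]; ring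
      rw [hq4, h4]
      have h5 : 0 < M ^ 3 := by positivity
      have h6 : (16 / 81 : ℝ) * (M ^ 3 * M ^ 2) ≤ M ^ 3 * (M ^ 2 / 5) := by
        nlinarith [mul_pos h5 (mul_pos hM0 hM0)]
      exact h6.trans (mul_le_mul_of_nonneg_left h2 h5.le)
    exact le_of_pow_le_pow_left₀ (by norm_num) hq0.le h3
  have hq1000 : 1000 ≤ q := by
    have : (6 : ℝ) ^ 5 ≤ r ^ 5 := pow_le_pow_left₀ (by norm_num) hr6.le 5
    linarith
  refine ⟨⌈(3 / 4) * q⌉₊, ?_⟩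
  have hs1 : (3 / 4) * q ≤ (⌈(3 / 4) * q⌉₊ : ℝ) := Nat.le_ceil _
  have hs2 : (⌈(3 / 4) * q⌉₊ : ℝ) < (3 / 4) * q + 1 := Nat.ceil_lt_add_one (by positivity)
  set s : ℝ := (⌈(3 / 4) * q⌉₊ : ℝ) with hs
  have hs0 : 0 < s := by linarith
  have hs3 : s ≤ (751 / 1000) * q := by linarith
  have hr7pos : 0 < r ^ 7 := by positivity
  have hMq : M ^ 3 / q ≤ (3 / 2) * r ^ 7 := by
    rw [div_le_iff₀ hq0, hM]
    have h5 : (3 / 2) * r ^ 7 * ((2 / 3) * r ^ 5) ≤ (3 / 2) * r ^ 7 * q :=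
      mul_le_mul_of_nonneg_left hq (by positivity)
    refine le_trans (le_of_eq ?_) h5
    ring
  have hqN : q ^ 3 / N = M ^ 3 / q := by
    rw [div_eq_div_iff hN.ne' hq0.ne', ← hq4]
    ring
  have h3 : 2 * M ^ 3 / (M + s) ≤ (8 / 3) * (M ^ 3 / q) := by
    have h4 : 2 * M ^ 3 / (M + s) ≤ 2 * M ^ 3 / ((3 / 4) * q) := by
      apply div_le_div_of_nonneg_left (by positivity) (by positivity)
      linarith
    refine h4.trans (le_of_eq ?_)
    field_simp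
    ring
  have h4 : 2 * s ^ 3 / (N + s) ≤ (848 / 1000) * (M ^ 3 / q) := by
    rw [← hqN]
    have h5 : s ^ 3 ≤ ((751 / 1000) * q) ^ 3 := pow_le_pow_left₀ hs0.le hs3 3
    have h5' : ((751 / 1000) * q) ^ 3 = (751 / 1000) ^ 3 * q ^ 3 := by ring
    have hq3 : 0 < q ^ 3 := by positivity
    have h6 : 2 * s ^ 3 / (N + s) ≤ (848 / 1000) * q ^ 3 / N := by
      apply div_le_div₀ (by positivity) _ hN (by linarith)
      have h7 : (751 / 1000 : ℝ) ^ 3 * q ^ 3 ≤ (424 / 1000) * q ^ 3 := by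
        apply mul_le_mul_of_nonneg_right _ hq3.le
        norm_num
      linarith
    refine h6.trans (le_of_eq ?_)
    ring
  have h5 : M ≤ r ^ 7 / 216 := by
    have h6 : (6 : ℝ) ^ 3 ≤ r ^ 3 := pow_le_pow_left₀ (by norm_num) hr6.le 3
    have h7 : r ^ 7 = r ^ 4 * r ^ 3 := by ring
    rw [hM, h7]
    have h8 : r ^ 4 * (6 : ℝ) ^ 3 ≤ r ^ 4 * r ^ 3 := mul_le_mul_of_nonneg_left h6 (by positivity)
    linarith
  have h6 := low_bd hM0 hs0.le
  have h7 := up_bd hN hs0.le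
  linarith

/-- Existence of a good window size. -/
lemma good_window {M N : ℝ} (hM : 0 < M) (hMN : M ≤ N) (h : N + 6 * M ^ (7 / 4 : ℝ) < M ^ 2) :
    ∃ s : ℕ, (s : ℝ) ^ 2 + M + N <
      (s : ℝ) ^ 2 * M ^ 2 / (M + s) ^ 2 + (s : ℝ) ^ 2 * N ^ 2 / (N + s) ^ 2 := by
  -- the fourth root of `M`
  obtain ⟨r, hr0, hr4, hr7⟩ : ∃ r : ℝ, 0 < r ∧ M = r ^ 4 ∧ M ^ (7 / 4 : ℝ) = r ^ 7 := by
    refine ⟨M ^ (1 / 4 : ℝ), by positivity, ?_, ?_⟩
    · rw [← Real.rpow_natCast, ← Real.rpow_mul hM.le]; norm_num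
    · rw [← Real.rpow_natCast, ← Real.rpow_mul hM.le]; norm_num
  rw [hr7] at h
  have hN : 0 < N := lt_of_lt_of_le hM hMN
  have hr6 : 6 < r := by
    by_contra hcon
    push Not at hcon
    have h1 : M ^ 2 = r * r ^ 7 := by rw [hr4]; ring
    have h2 : r * r ^ 7 ≤ 6 * r ^ 7 := mul_le_mul_of_nonneg_right hcon (by positivity)
    linarith
  have hM1296 : 1296 < M := by
    rw [hr4]
    have : (6 : ℝ) ^ 4 < r ^ 4 := pow_lt_pow_left₀ hr6 (by norm_num) (by norm_num)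
    linarith
  rcases le_total N (M ^ 2 / 64) with h1 | h1
  · exact regime1 hM1296 hMN h1
  rcases le_total N (M ^ 2 / 5) with h2 | h2
  · exact regime2 hM1296 h1 h2
  · rw [hr4] at h h2 ⊢
    exact regime3 hr6 hN h h2

/-- Any two Costas arrays of orders `m ≤ n` with `n + 6 m^{7/4} < m²` have a distance vector in
common. -/
theorem result (m n : ℕ) (hmn : m ≤ n) (h : (n : ℝ) + 6 * (m : ℝ) ^ (7 / 4 : ℝ) < (m : ℝ) ^ 2)
    (f : Equiv.Perm (Fin m)) (g : Equiv.Perm (Fin n)) (hf : IsCostas f) (hg : IsCostas g) :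
    (distanceVectors f ∩ distanceVectors g).Nonempty := by
  by_contra hdis
  have hm : 0 < m := by
    rcases Nat.eq_zero_or_pos m with rfl | hm
    · exfalso
      have : (0 : ℝ) ≤ n := Nat.cast_nonneg n
      norm_num at h
      linarith
    · exact hm
  have hm' : (0 : ℝ) < m := by exact_mod_cast hm
  obtain ⟨s, hs⟩ := good_window hm' (by exact_mod_cast hmn) h
  have := window_real hf hg hdis hm (lt_of_lt_of_le hm hmn) s
  linarith

end Pool.Agent.Results.MP_61e712_co.QuadraticRange
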