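import Mathlib

/-!
# Welch Costas arrays share a distance vector with every Costas array of smaller or equal order
-/

namespace Pool.Agent.Results.MP_61e712_co.WelchArrays

open Finset

/-- `f` is a Costas permutation of order `n` (rows and columns are indexed by `0, …, n - 1`):
the vectors `(j - i, f j - f i)`, `i < j`, are pairwise distinct. -/
def IsCostas {n : ℕ} (f : Equiv.Perm (Fin n)) : Prop :=
  ∀ i j k l : Fin n, i < j → k < l →
    (((j : ℕ) : ℤ) - ((i : ℕ) : ℤ), ((f j : ℕ) : ℤ) - ((f i : ℕ) : ℤ)) =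
      (((l : ℕ) : ℤ) - ((k : ℕ) : ℤ), ((f l : ℕ) : ℤ) - ((f k : ℕ) : ℤ)) →
    i = k ∧ j = l

/-- The set of distance vectors `(j - i, f j - f i)`, `i < j`, of a permutation. -/
def distanceVectors {n : ℕ} (f : Equiv.Perm (Fin n)) : Set (ℤ × ℤ) :=
  {v | ∃ i j : Fin n, i < j ∧
    v = (((j : ℕ) : ℤ) - ((i : ℕ) : ℤ), ((f j : ℕ) : ℤ) - ((f i : ℕ) : ℤ))}

/-- `f` is a Welch permutation of order `p - 1`: there are a primitive root `g` modulo `p` and a
unit `c` modulo `p` with `f i + 1 ≡ c * g ^ i (mod p)` for `i = 0, …, p - 2`. (Rows and columns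
are numbered `0, …, p - 2`, so that `f i + 1` is the usual value in `1, …, p - 1`.) -/
def IsWelch (p : ℕ) (f : Equiv.Perm (Fin (p - 1))) : Prop :=
  ∃ g c : (ZMod p)ˣ, orderOf g = p - 1 ∧
    ∀ i : Fin (p - 1), (((f i : ℕ) + 1 : ℕ) : ZMod p) = (c : ZMod p) * (g : ZMod p) ^ (i : ℕ)

/-! ### The symmetric numerical semigroup -/

/-- `a` is bad for `h` modulo `p`: the residue of `a * h` is less than `a`. -/
def Bad (p h a : ℕ) : Prop := (a * h) % p < a

instance (p h : ℕ) : DecidablePred (Bad p h) := fun a => by unfold Bad; infer_instance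

lemma bad_add {p h a b : ℕ} (ha : Bad p h a) (hb : Bad p h b) : Bad p h (a + b) := by
  unfold Bad at *
  have h1 : ((a + b) * h) % p ≤ (a * h) % p + (b * h) % p := by
    rw [add_mul, Nat.add_mod]
    exact Nat.mod_le _ _
  omega

lemma mod_sub {p h a : ℕ} (hp : 0 < p) (ha : a ≤ p) (h0 : (a * h) % p ≠ 0) :
    ((p - a) * h) % p = p - (a * h) % p := by
  have h1 : (((p - a) * h) % p + (a * h) % p) % p = 0 := by
    rw [← Nat.add_mod, ← add_mul, Nat.sub_add_cancel ha]
    exact Nat.mul_mod_right p h
  have h2 := Nat.mod_lt ((p - a) * h) hp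
  have h3 := Nat.mod_lt (a * h) hp
  have h4 : p ∣ ((p - a) * h) % p + (a * h) % p := Nat.dvd_of_mod_eq_zero h1
  obtain ⟨k, hk⟩ := h4
  have h5 : k = 1 := by
    rcases Nat.lt_or_ge k 1 with h | h
    · have : k = 0 := by omega
      subst this
      omega
    · rcases Nat.lt_or_ge 1 k with h' | h'
      · exfalso
        have : p * 2 ≤ p * k := Nat.mul_le_mul_left p h'
        omega
      · omega
  subst h5
  omega

/-- the bad numbers below `z` -/
def A (p h z : ℕ) : Finset ℕ := (Icc 1 (z - 1)).filter (Bad p h)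

/-- `z` is a gap: no two bad numbers add up to `z`. -/
def Gap (p h z : ℕ) : Prop := ∀ a, 1 ≤ a → a < z → Bad p h a → ¬ Bad p h (z - a)

lemma gap_count {p h z : ℕ} (hz : Gap p h z) (E : Finset ℕ)
    (hE : ∀ e ∈ E, 1 ≤ e ∧ e < z ∧ ¬ Bad p h e ∧ ¬ Bad p h (z - e)) :
    2 * (A p h z).card + E.card ≤ z - 1 := by
  have hinj : Set.InjOn (fun a => z - a) (A p h z : Set ℕ) := by
    intro a ha b hb hab
    simp only [A, coe_filter, mem_Icc] at ha hb
    have ha' := ha.1
    have hb' := hb.1
    simp only at hab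
    omega
  have hc := card_image_of_injOn hinj
  have hd1 : Disjoint (A p h z) ((A p h z).image (fun a => z - a)) := by
    rw [disjoint_left]
    intro a ha hb
    simp only [A, mem_image, mem_filter, mem_Icc] at ha hb
    obtain ⟨b, ⟨⟨hb1, hb2⟩, hb3⟩, hb4⟩ := hb
    have h1 := hz b hb1 (by omega) hb3
    rw [hb4] at h1
    exact h1 ha.2
  have hd2 : Disjoint (A p h z ∪ (A p h z).image (fun a => z - a)) E := by
    rw [disjoint_left]
    intro a ha hb
    obtain ⟨h1, h2, h3, h4⟩ := hE a hb
    rcases mem_union.1 ha with h | h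
    · simp only [A, mem_filter, mem_Icc] at h
      exact h3 h.2
    · simp only [A, mem_image, mem_filter, mem_Icc] at h
      obtain ⟨b, ⟨⟨hb1, hb2⟩, hb3⟩, hb4⟩ := h
      apply h4
      rw [← hb4]
      have : z - (z - b) = b := by omega
      rwa [this]
  have hsub : (A p h z ∪ (A p h z).image (fun a => z - a)) ∪ E ⊆ Icc 1 (z - 1) := by
    intro a ha
    rcases mem_union.1 ha with h | h
    · rcases mem_union.1 h with h | h
      · exact (mem_filter.1 h).1
      · simp only [A, mem_image, mem_filter, mem_Icc] at h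
        obtain ⟨b, ⟨⟨hb1, hb2⟩, hb3⟩, hb4⟩ := h
        rw [mem_Icc]
        omega
    · obtain ⟨h1, h2, h3, h4⟩ := hE a h
      rw [mem_Icc]
      omega
  have := card_le_card hsub
  rw [card_union_of_disjoint hd2, card_union_of_disjoint hd1, hc] at this
  simp only [Nat.card_Icc] at this
  omega

lemma A_card_add {p h m z : ℕ} (hm : 1 ≤ m) (hmz : m ≤ z) (hbad : ∀ a, m ≤ a → a < z → Bad p h a) :
    (A p h z).card = (A p h m).card + (z - m) := by
  have h1 : A p h z = A p h m ∪ Icc m (z - 1) := by
    ext a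
    simp only [A, mem_union, mem_filter, mem_Icc]
    constructor
    · rintro ⟨⟨h1, h2⟩, h3⟩
      rcases Nat.lt_or_ge a m with h | h
      · left; exact ⟨⟨h1, by omega⟩, h3⟩
      · right; exact ⟨h, h2⟩
    · rintro (⟨⟨h1, h2⟩, h3⟩ | ⟨h1, h2⟩)
      · exact ⟨⟨h1, by omega⟩, h3⟩
      · refine ⟨⟨by omega, h2⟩, hbad a h1 ?_⟩
        omega
  have h2 : Disjoint (A p h m) (Icc m (z - 1)) := by
    rw [disjoint_left]
    intro a ha hb
    simp only [A, mem_filter, mem_Icc] at ha hb
    omega
  rw [h1, card_union_of_disjoint h2, Nat.card_Icc]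
  omega

/-- The smallest gap `z ≥ m`. -/
lemma exists_gap {p h m : ℕ} (hp : p.Prime) (hh : h % p ≠ 0) (hmp : m ≤ p) :
    ∃ z, m ≤ z ∧ Gap p h z ∧ (∀ a, m ≤ a → a < z → Bad p h a) := by
  classical
  have hex : ∃ z, m ≤ z ∧ (z = p ∨ ¬ Bad p h z) := ⟨p, hmp, Or.inl rfl⟩
  refine ⟨Nat.find hex, (Nat.find_spec hex).1, ?_, ?_⟩
  · have hle : Nat.find hex ≤ p := Nat.find_min' hex ⟨hmp, Or.inl rfl⟩
    intro a ha1 ha2 ha3 ha4
    rcases (Nat.find_spec hex).2 with h1 | h1
    · rw [h1] at ha2 ha4
      have h0 : (a * h) % p ≠ 0 := by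
        intro h0
        have : p ∣ a * h := Nat.dvd_of_mod_eq_zero h0
        rcases (Nat.Prime.dvd_mul hp).1 this with h2 | h2
        · exact absurd (Nat.le_of_dvd (by omega) h2) (by omega)
        · exact hh (Nat.mod_eq_zero_of_dvd h2)
      have h2 := mod_sub hp.pos ha2.le h0
      unfold Bad at ha3 ha4
      rw [h2] at ha4
      omega
    · apply h1
      have h2 := bad_add ha3 ha4
      have h3 : a + (Nat.find hex - a) = Nat.find hex := by omega
      rwa [h3] at h2
  · intro a ha1 ha2
    have := Nat.find_min hex ha2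
    push Not at this
    exact (this ha1).2

/-! ### The combinatorial core -/

/-- Consecutive differences. -/
lemma core {p h m : ℕ} (hp : p.Prime) (hh : h % p ≠ 0) (hm : 3 ≤ m) (hmp : m ≤ p)
    (h1 : ¬ Bad p h 1) (h2 : ¬ Bad p h 2) (b : ℕ → ℤ)
    (hb : ∀ i j, i < m → j < m → b i = b j → i = j)
    (hb0 : ∀ i, i < m → 0 ≤ b i ∧ b i < m)
    (hd : ∀ i j, i + 1 < m → j + 1 < m → b (i + 1) - b i = b (j + 1) - b j → i = j)
    (d : ℤ) (hbad : ∀ i, i + 1 < m → Bad p h (b (i + 1) - b i).natAbs ∨ b (i + 1) - b i = d) :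
    False := by
  classical
  obtain ⟨z, hmz, hgap, hfull⟩ := exists_gap hp hh hmp
  have hcard := A_card_add (by omega : 1 ≤ m) hmz hfull
  -- the set of differences
  set D : Finset ℤ := (range (m - 1)).image (fun i => b (i + 1) - b i) with hD
  have hDcard : D.card = m - 1 := by
    rw [hD, card_image_of_injOn, card_range]
    intro i hi j hj hij
    simp only [coe_range, Set.mem_Iio] at hi hj
    exact hd i j (by omega) (by omega) hij
  set T : Finset ℤ := (A p h m).image (fun a : ℕ => (a : ℤ)) ∪
    (A p h m).image (fun a : ℕ => -(a : ℤ)) with hT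
  have hTcard : T.card ≤ 2 * (A p h m).card := by
    rw [hT]
    have h3 := card_union_le ((A p h m).image (fun a : ℕ => (a : ℤ)))
      ((A p h m).image (fun a : ℕ => -(a : ℤ)))
    have h4 := card_image_le (s := A p h m) (f := fun a : ℕ => (a : ℤ))
    have h5 := card_image_le (s := A p h m) (f := fun a : ℕ => -(a : ℤ))
    omega
  have hDT : D ⊆ insert d T := by
    intro x hx
    rw [hD, mem_image] at hx
    obtain ⟨i, hi, rfl⟩ := hx
    rw [mem_range] at hi
    rcases hbad i (by omega) with h3 | h3
    · apply mem_insert_of_mem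
      have h4 := hb0 i (by omega)
      have h5 := hb0 (i + 1) (by omega)
      have h6 : b (i + 1) - b i ≠ 0 := by
        intro h6
        have := hb (i + 1) i (by omega) (by omega) (by omega)
        omega
      rw [hT, mem_union, mem_image, mem_image]
      rcases lt_or_gt_of_ne h6 with h7 | h7
      · right
        refine ⟨(b (i + 1) - b i).natAbs, ?_, by omega⟩
        simp only [A, mem_filter, mem_Icc]
        exact ⟨by omega, h3⟩
      · left
        refine ⟨(b (i + 1) - b i).natAbs, ?_, by omega⟩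
        simp only [A, mem_filter, mem_Icc]
        exact ⟨by omega, h3⟩
    · rw [h3]
      exact mem_insert_self _ _
  have hmain : ∀ Y : Finset ℤ, Y ⊆ T → Disjoint D Y →
      m - 1 + Y.card ≤ 2 * (A p h m).card + 1 := by
    intro Y hY hDY
    have h3 : D ∪ Y ⊆ insert d T := union_subset hDT (hY.trans (subset_insert _ _))
    have h4 := card_le_card h3
    rw [card_union_of_disjoint hDY, hDcard] at h4
    have h5 := card_insert_le d T
    omega
  -- membership in T
  have hmemT : ∀ a : ℕ, 1 ≤ a → a < m → Bad p h a → (a : ℤ) ∈ T ∧ -(a : ℤ) ∈ T := by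
    intro a ha1 ha2 ha3
    have : a ∈ A p h m := by
      simp only [A, mem_filter, mem_Icc]
      exact ⟨by omega, ha3⟩
    exact ⟨mem_union_left _ (mem_image_of_mem _ this), mem_union_right _ (mem_image_of_mem _ this)⟩
  -- large differences
  have hmemD : ∀ x : ℤ, x ∈ D → ∃ i, i + 1 < m ∧ b (i + 1) - b i = x := by
    intro x hx
    rw [hD, mem_image] at hx
    obtain ⟨i, hi, hix⟩ := hx
    rw [mem_range] at hi
    exact ⟨i, by omega, hix⟩
  have hO1 : ((m : ℤ) - 1) ∈ D → (-((m : ℤ) - 1)) ∈ D → False := by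
    intro hx hy
    obtain ⟨i, hi, hix⟩ := hmemD _ hx
    obtain ⟨j, hj, hjx⟩ := hmemD _ hy
    have a1 := hb0 i (by omega)
    have a2 := hb0 (i + 1) hi
    have a3 := hb0 j (by omega)
    have a4 := hb0 (j + 1) hj
    have e1 := hb i (j + 1) (by omega) hj (by omega)
    have e2 := hb (i + 1) j hi (by omega) (by omega)
    omega
  have hO2 : ((m : ℤ) - 1) ∈ D → ((m : ℤ) - 2) ∈ D → False := by
    intro hx hy
    obtain ⟨i, hi, hix⟩ := hmemD _ hx
    obtain ⟨j, hj, hjx⟩ := hmemD _ hy
    have a1 := hb0 i (by omega)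
    have a2 := hb0 (i + 1) hi
    have a3 := hb0 j (by omega)
    have a4 := hb0 (j + 1) hj
    rcases (by omega : b j = 0 ∨ b j = 1) with h3 | h3
    · have e1 := hb i j (by omega) (by omega) (by omega)
      subst e1
      omega
    · have e1 := hb (i + 1) (j + 1) hi hj (by omega)
      have e2 : i = j := by omega
      subst e2
      omega
  have hO3 : (-((m : ℤ) - 1)) ∈ D → (-((m : ℤ) - 2)) ∈ D → False := by
    intro hx hy
    obtain ⟨i, hi, hix⟩ := hmemD _ hx
    obtain ⟨j, hj, hjx⟩ := hmemD _ hy
    have a1 := hb0 i (by omega)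
    have a2 := hb0 (i + 1) hi
    have a3 := hb0 j (by omega)
    have a4 := hb0 (j + 1) hj
    rcases (by omega : b (j + 1) = 0 ∨ b (j + 1) = 1) with h3 | h3
    · have e1 := hb (i + 1) (j + 1) hi hj (by omega)
      have e2 : i = j := by omega
      subst e2
      omega
    · have e1 := hb i j (by omega) (by omega) (by omega)
      subst e1
      omega
  have hcast1 : ((m - 1 : ℕ) : ℤ) = (m : ℤ) - 1 := by omega
  have hcast2 : ((m - 2 : ℕ) : ℤ) = (m : ℤ) - 2 := by omega
  by_cases c1 : Bad p h (m - 1)
  · obtain ⟨t1, t2⟩ := hmemT (m - 1) (by omega) (by omega) c1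
    rw [hcast1] at t1 t2
    by_cases c2 : Bad p h (m - 2)
    · -- both are bad
      obtain ⟨t3, t4⟩ := hmemT (m - 2) (by omega) (by omega) c2
      rw [hcast2] at t3 t4
      have hY : ∃ Y : Finset ℤ, Y ⊆ T ∧ Disjoint D Y ∧ Y.card = 2 := by
        by_cases d1 : ((m : ℤ) - 1) ∈ D
        · refine ⟨{-((m : ℤ) - 1), (m : ℤ) - 2}, ?_, ?_, ?_⟩
          · intro x hx
            simp only [mem_insert, mem_singleton] at hx
            rcases hx with rfl | rfl
            · exact t2
            · exact t3
          · rw [disjoint_right]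
            intro x hx
            simp only [mem_insert, mem_singleton] at hx
            rcases hx with rfl | rfl
            · exact fun hx => hO1 d1 hx
            · exact fun hx => hO2 d1 hx
          · apply card_pair
            omega
        · by_cases d2 : (-((m : ℤ) - 1)) ∈ D
          · refine ⟨{((m : ℤ) - 1), -((m : ℤ) - 2)}, ?_, ?_, ?_⟩
            · intro x hx
              simp only [mem_insert, mem_singleton] at hx
              rcases hx with rfl | rfl
              · exact t1
              · exact t4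
            · rw [disjoint_right]
              intro x hx
              simp only [mem_insert, mem_singleton] at hx
              rcases hx with rfl | rfl
              · exact d1
              · exact fun hx => hO3 d2 hx
            · apply card_pair
              omega
          · refine ⟨{((m : ℤ) - 1), -((m : ℤ) - 1)}, ?_, ?_, ?_⟩
            · intro x hx
              simp only [mem_insert, mem_singleton] at hx
              rcases hx with rfl | rfl
              · exact t1
              · exact t2
            · rw [disjoint_right]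
              intro x hx
              simp only [mem_insert, mem_singleton] at hx
              rcases hx with rfl | rfl
              · exact d1
              · exact d2
            · apply card_pair
              omega
      obtain ⟨Y, y1, y2, y3⟩ := hY
      have e1 := hmain Y y1 y2
      have e2 := gap_count hgap ∅ (by simp)
      rw [card_empty] at e2
      omega
    · -- only `m - 1` is bad
      have hY : ∃ Y : Finset ℤ, Y ⊆ T ∧ Disjoint D Y ∧ Y.card = 1 := by
        by_cases d1 : ((m : ℤ) - 1) ∈ D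
        · refine ⟨{-((m : ℤ) - 1)}, by simpa using t2, ?_, card_singleton _⟩
          rw [disjoint_singleton_right]
          exact fun hx => hO1 d1 hx
        · refine ⟨{(m : ℤ) - 1}, by simpa using t1, ?_, card_singleton _⟩
          rw [disjoint_singleton_right]
          exact d1
      obtain ⟨Y, y1, y2, y3⟩ := hY
      have e1 := hmain Y y1 y2
      have e2 := gap_count hgap ∅ (by simp)
      rw [card_empty] at e2
      have e3 : z = m := by omega
      subst e3
      have e4 := gap_count hgap {2} (by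
        intro e he
        rw [mem_singleton] at he
        subst he
        exact ⟨by omega, by omega, h2, c2⟩)
      rw [card_singleton] at e4
      omega
  · have e1 := hmain ∅ (by simp) (by simp)
    rw [card_empty] at e1
    have e2 := gap_count hgap ∅ (by simp)
    rw [card_empty] at e2
    rcases (by omega : z = m ∨ z = m + 1) with e3 | e3
    · subst e3
      have e4 := gap_count hgap {1, z - 1} (by
        intro e he
        simp only [mem_insert, mem_singleton] at he
        rcases he with rfl | rfl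
        · exact ⟨by omega, by omega, h1, c1⟩
        · have : z - (z - 1) = 1 := by omega
          rw [this]
          exact ⟨by omega, by omega, c1, h1⟩)
      rw [card_pair (by omega)] at e4
      omega
    · subst e3
      have hE : ∀ e ∈ ({2, m - 1} : Finset ℕ), 1 ≤ e ∧ e < m + 1 ∧ ¬ Bad p h e ∧
          ¬ Bad p h (m + 1 - e) := by
        intro e he
        simp only [mem_insert, mem_singleton] at he
        rcases he with rfl | rfl
        · have : m + 1 - 2 = m - 1 := by omega
          rw [this]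
          exact ⟨by omega, by omega, h2, c1⟩
        · have : m + 1 - (m - 1) = 2 := by omega
          rw [this]
          exact ⟨by omega, by omega, c1, h2⟩
      have e4 := gap_count hgap {2, m - 1} hE
      rcases Nat.eq_or_lt_of_le hm with h3 | h3
      · subst h3
        simp at e4
        omega
      · rw [card_pair (by omega)] at e4
        omega

/-! ### Differences of width one in a Welch permutation -/

/-- If `|d|` is not bad, then `(1, d)` is a distance vector of the Welch permutation, apart from the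
single value `d = f 0 - f (p - 2)`. -/
lemma welch_width_one {p : ℕ} (hp : p.Prime) (hp5 : 5 ≤ p) (f : Equiv.Perm (Fin (p - 1)))
    (g c : (ZMod p)ˣ) (hf : ∀ i : Fin (p - 1),
      (((f i : ℕ) + 1 : ℕ) : ZMod p) = (c : ZMod p) * (g : ZMod p) ^ (i : ℕ))
    (hg : (g : ZMod p) ^ (p - 1) = 1)
    (h : ℕ) (hh : (1 - (g : ZMod p)) * (h : ZMod p) = 1)
    (d : ℤ) (hd0 : d ≠ 0) (hd1 : d.natAbs ≤ p - 2) (hbad : ¬ Bad p h d.natAbs) :
    ((1 : ℤ), d) ∈ distanceVectors f ∨
      d = ((f ⟨0, by omega⟩ : ℕ) : ℤ) - ((f ⟨p - 2, by omega⟩ : ℕ) : ℤ) := by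
  have : Fact p.Prime := ⟨hp⟩
  have hgz : (g : ZMod p) ≠ 0 := g.ne_zero
  have hhz : (h : ZMod p) ≠ 0 := by
    intro h0
    rw [h0, mul_zero] at hh
    exact zero_ne_one hh
  -- the residue of `|d| h`
  set a : ℕ := d.natAbs with ha
  set r : ℕ := (a * h) % p with hr
  have ha1 : 1 ≤ a := by omega
  have hrlt : r < p := Nat.mod_lt _ hp.pos
  have hrz : ((r : ℕ) : ZMod p) = (a : ZMod p) * (h : ZMod p) := by
    rw [hr, ZMod.natCast_mod, Nat.cast_mul]
  have haz : (a : ZMod p) ≠ 0 := by
    intro h0
    rw [ZMod.natCast_eq_zero_iff] at h0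
    exact absurd (Nat.le_of_dvd (by omega) h0) (by omega)
  have hra : r ≠ a := by
    intro h0
    rw [h0] at hrz
    have h1 : (h : ZMod p) = 1 := by
      have : (a : ZMod p) * ((h : ZMod p) - 1) = 0 := by rw [mul_sub, mul_one, ← hrz, sub_self]
      rcases mul_eq_zero.1 this with h2 | h2
      · exact absurd h2 haz
      · exact sub_eq_zero.1 h2
    rw [h1, mul_one] at hh
    apply hgz
    linear_combination -hh
  have hrgt : a < r := by
    unfold Bad at hbad
    omega
  -- the starting value `x`
  obtain ⟨x, hx1, hx2, hx3, hx4, hx5⟩ : ∃ x : ℤ, 1 ≤ x ∧ x ≤ p - 1 ∧ 1 ≤ x + d ∧ x + d ≤ p - 1 ∧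
      (x : ZMod p) * ((g : ZMod p) - 1) = (d : ZMod p) := by
    rcases lt_or_gt_of_ne hd0 with h7 | h7
    · have hda : d = -(a : ℤ) := by omega
      refine ⟨r, by omega, by omega, by omega, by omega, ?_⟩
      rw [hda]
      push_cast
      rw [hrz]
      linear_combination (-(a : ZMod p)) * hh
    · have hda : d = (a : ℤ) := by omega
      refine ⟨(p : ℤ) - r, by omega, by omega, by omega, by omega, ?_⟩
      rw [hda]
      push_cast
      rw [hrz, ZMod.natCast_self]
      linear_combination ((a : ZMod p)) * hh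
  -- the position of `x`
  obtain ⟨i, hi⟩ := f.surjective ⟨(x - 1).toNat, by omega⟩
  have hix : ((f i : ℕ) : ℤ) = x - 1 := by
    rw [hi]
    simp only
    omega
  have hxz : (x : ZMod p) = (c : ZMod p) * (g : ZMod p) ^ (i : ℕ) := by
    rw [← hf i]
    have : x = (((f i : ℕ) + 1 : ℕ) : ℤ) := by push_cast; omega
    rw [this]
    push_cast
    rfl
  have hnext : ∀ j : Fin (p - 1), (c : ZMod p) * (g : ZMod p) ^ (j : ℕ) =
      (c : ZMod p) * (g : ZMod p) ^ ((i : ℕ) + 1) → ((f j : ℕ) : ℤ) = x + d - 1 := by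
    intro j hj
    have h1 : (((((f j : ℕ) + 1 : ℕ) : ℤ) : ℤ) : ZMod p) = ((x + d : ℤ) : ZMod p) := by
      rw [Int.cast_natCast, hf j, hj, pow_succ, ← mul_assoc, ← hxz]
      push_cast
      linear_combination hx5
    rw [ZMod.intCast_eq_intCast_iff_dvd_sub] at h1
    obtain ⟨k, hk⟩ := h1
    have h2 := (f j).isLt
    have h3 : k = 0 := by
      have hb1 : (p : ℤ) * k < p := by
        rw [← hk]
        push_cast
        omega
      have hb2 : -(p : ℤ) < (p : ℤ) * k := by
        rw [← hk]
        push_cast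
        omega
      have hppos : (0 : ℤ) < p := by omega
      have h4 : k < 1 := by
        by_contra h5
        push Not at h5
        nlinarith
      have h5 : -1 < k := by
        by_contra h6
        push Not at h6
        nlinarith
      omega
    subst h3
    rw [mul_zero] at hk
    push_cast at hk
    omega
  rcases Nat.lt_or_ge ((i : ℕ) + 1) (p - 1) with h8 | h8
  · left
    have h9 := hnext ⟨(i : ℕ) + 1, h8⟩ rfl
    refine ⟨i, ⟨(i : ℕ) + 1, h8⟩, ?_, ?_⟩
    · rw [Fin.lt_def]
      simp
    · rw [h9, hix]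
      simp only [Prod.mk.injEq]
      constructor
      · push_cast
        ring
      · ring
  · right
    have hi2 := i.isLt
    have h9 : i = ⟨p - 2, by omega⟩ := by
      apply Fin.ext
      simp only
      omega
    have h10 := hnext ⟨0, by omega⟩ (by
      have : (i : ℕ) + 1 = p - 1 := by omega
      rw [this, hg, pow_zero])
    rw [h10, ← h9, hix]
    ring

/-- The result for a Welch permutation. -/
lemma welch_common {p : ℕ} (hp : p.Prime) (hp5 : 5 ≤ p) (f : Equiv.Perm (Fin (p - 1)))
    (hf : IsWelch p f) {m : ℕ} (hm : 3 ≤ m) (hmp : m ≤ p - 1) (b : Equiv.Perm (Fin m))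
    (hb : IsCostas b) : (distanceVectors f ∩ distanceVectors b).Nonempty := by
  have : Fact p.Prime := ⟨hp⟩
  obtain ⟨g, c, hord, hfi⟩ := hf
  have hgpow : (g : ZMod p) ^ (p - 1) = 1 := by
    have := pow_orderOf_eq_one g
    rw [hord] at this
    have h2 := congrArg Units.val this
    simpa using h2
  have hg1 : (1 : ZMod p) - (g : ZMod p) ≠ 0 := by
    intro h0
    have h1 : g = 1 := by
      apply Units.ext
      rw [Units.val_one]
      linear_combination -h0
    rw [h1, orderOf_one] at hord
    omega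
  have hgm1 : (g : ZMod p) ≠ -1 := by
    intro h0
    have h1 : g ^ 2 = 1 := by
      apply Units.ext
      rw [Units.val_pow_eq_pow_val, Units.val_one, h0]
      ring
    have h2 := orderOf_dvd_of_pow_eq_one h1
    rw [hord] at h2
    have := Nat.le_of_dvd (by norm_num) h2
    omega
  set h : ℕ := ((1 - (g : ZMod p))⁻¹).val with hhdef
  have hhz : (h : ZMod p) = (1 - (g : ZMod p))⁻¹ := by
    rw [hhdef, ZMod.natCast_zmod_val]
  have hh : (1 - (g : ZMod p)) * (h : ZMod p) = 1 := by
    rw [hhz]
    exact mul_inv_cancel₀ hg1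
  have hh0 : h % p ≠ 0 := by
    intro h0
    have h1 : (h : ZMod p) = 0 := by
      rw [ZMod.natCast_eq_zero_iff]
      exact Nat.dvd_of_mod_eq_zero h0
    rw [h1, mul_zero] at hh
    exact zero_ne_one hh
  have hb1 : ¬ Bad p h 1 := by
    unfold Bad
    rw [one_mul]
    omega
  have hb2 : ¬ Bad p h 2 := by
    unfold Bad
    intro h0
    have h1 : (((2 * h) % p : ℕ) : ZMod p) = 2 * (h : ZMod p) := by
      rw [ZMod.natCast_mod, Nat.cast_mul]
      push_cast
      ring
    have h2z : (2 : ZMod p) ≠ 0 := by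
      intro h3
      have h4 : ((2 : ℕ) : ZMod p) = 0 := by exact_mod_cast h3
      rw [ZMod.natCast_eq_zero_iff] at h4
      have := Nat.le_of_dvd (by norm_num) h4
      omega
    rcases (by omega : (2 * h) % p = 0 ∨ (2 * h) % p = 1) with h3 | h3
    · rw [h3, Nat.cast_zero] at h1
      have h4 : (h : ZMod p) = 0 := by
        rcases mul_eq_zero.1 h1.symm with h5 | h5
        · exact absurd h5 h2z
        · exact h5
      rw [h4, mul_zero] at hh
      exact zero_ne_one hh
    · rw [h3, Nat.cast_one] at h1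
      apply hgm1
      linear_combination (-2 : ZMod p) * hh + (1 - (g : ZMod p)) * (-h1)
  by_contra hcon
  rw [Set.not_nonempty_iff_eq_empty] at hcon
  -- the permutation `b` as a function on `ℕ`
  let B : ℕ → ℤ := fun i => if hi : i < m then ((b ⟨i, hi⟩ : ℕ) : ℤ) else 0
  have hB : ∀ i (hi : i < m), B i = ((b ⟨i, hi⟩ : ℕ) : ℤ) := by
    intro i hi
    simp only [B, dif_pos hi]
  refine core hp hh0 hm (by omega) hb1 hb2 B ?_ ?_ ?_
    (((f ⟨0, by omega⟩ : ℕ) : ℤ) - ((f ⟨p - 2, by omega⟩ : ℕ) : ℤ)) ?_
  · intro i j hi hj hij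
    rw [hB i hi, hB j hj] at hij
    have h1 : b ⟨i, hi⟩ = b ⟨j, hj⟩ := by
      apply Fin.ext
      exact_mod_cast hij
    have h2 := b.injective h1
    simpa using h2
  · intro i hi
    rw [hB i hi]
    have := (b ⟨i, hi⟩).isLt
    omega
  · intro i j hi hj hij
    rw [hB i (by omega), hB (i + 1) hi, hB j (by omega), hB (j + 1) hj] at hij
    have h1 := hb ⟨i, by omega⟩ ⟨i + 1, hi⟩ ⟨j, by omega⟩ ⟨j + 1, hj⟩
      (by rw [Fin.lt_def]; simp) (by rw [Fin.lt_def]; simp) (by
        rw [Prod.mk.injEq]
        refine ⟨?_, hij⟩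
        push_cast
        ring)
    have h2 := h1.1
    simpa using h2
  · intro i hi
    rw [hB i (by omega), hB (i + 1) hi]
    set d : ℤ := ((b ⟨i + 1, hi⟩ : ℕ) : ℤ) - ((b ⟨i, by omega⟩ : ℕ) : ℤ) with hd
    by_cases hbad : Bad p h d.natAbs
    · exact Or.inl hbad
    · right
      have l1 := (b ⟨i + 1, hi⟩).isLt
      have l2 := (b ⟨i, by omega⟩).isLt
      have hd0 : d ≠ 0 := by
        intro h0
        have h1 : b ⟨i + 1, hi⟩ = b ⟨i, by omega⟩ := by
          apply Fin.ext
          omega
        have h2 := b.injective h1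
        simp at h2
      rcases welch_width_one hp hp5 f g c hfi hgpow h hh d hd0 (by omega) hbad with h1 | h1
      · exfalso
        have h2 : ((1 : ℤ), d) ∈ distanceVectors b := by
          refine ⟨⟨i, by omega⟩, ⟨i + 1, hi⟩, by rw [Fin.lt_def]; simp, ?_⟩
          rw [Prod.mk.injEq]
          refine ⟨?_, hd⟩
          push_cast
          ring
        have h3 : ((1 : ℤ), d) ∈ distanceVectors f ∩ distanceVectors b := ⟨h1, h2⟩
        rw [hcon] at h3
        exact h3
      · exact h1

/-! ### Transposition -/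

lemma isCostas_symm {n : ℕ} {f : Equiv.Perm (Fin n)} (hf : IsCostas f) : IsCostas f.symm := by
  intro i j k l hij hkl h
  rw [Prod.mk.injEq] at h
  obtain ⟨h1, h2⟩ := h
  have hne : f.symm i ≠ f.symm j := fun h => hij.ne (f.symm.injective h)
  rcases lt_or_gt_of_ne hne with h3 | h3
  · have h4 : f.symm k < f.symm l := by
      rw [Fin.lt_def] at h3 ⊢
      omega
    have h5 := hf (f.symm i) (f.symm j) (f.symm k) (f.symm l) h3 h4 (by
      rw [Prod.mk.injEq]
      simp only [Equiv.apply_symm_apply]
      exact ⟨h2, h1⟩)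
    exact ⟨f.symm.injective h5.1, f.symm.injective h5.2⟩
  · have h4 : f.symm l < f.symm k := by
      rw [Fin.lt_def] at h3
      rw [Fin.lt_def]
      omega
    have h5 := hf (f.symm j) (f.symm i) (f.symm l) (f.symm k) h3 h4 (by
      rw [Prod.mk.injEq]
      simp only [Equiv.apply_symm_apply]
      constructor
      · omega
      · omega)
    exact ⟨f.symm.injective h5.2, f.symm.injective h5.1⟩

lemma mem_symm {n : ℕ} {f : Equiv.Perm (Fin n)} {s t : ℤ}
    (h : (s, t) ∈ distanceVectors f.symm) :
    (0 < t ∧ (t, s) ∈ distanceVectors f) ∨ (t < 0 ∧ (-t, -s) ∈ distanceVectors f) := by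
  obtain ⟨i, j, hij, h⟩ := h
  rw [Prod.mk.injEq] at h
  obtain ⟨rfl, rfl⟩ := h
  have hne : f.symm i ≠ f.symm j := fun h => hij.ne (f.symm.injective h)
  rcases lt_or_gt_of_ne hne with h3 | h3
  · left
    refine ⟨?_, f.symm i, f.symm j, h3, ?_⟩
    · rw [Fin.lt_def] at h3
      omega
    · simp only [Equiv.apply_symm_apply]
  · right
    refine ⟨?_, f.symm j, f.symm i, h3, ?_⟩
    · rw [Fin.lt_def] at h3
      omega
    · simp only [Equiv.apply_symm_apply]
      rw [Prod.mk.injEq]
      constructor
      · ring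
      · ring

/-- Let `p ≥ 5` be a prime. Every Welch array of order `p - 1`, and every transpose of a Welch
array, has a distance vector in common with every Costas array of order `m`, `3 ≤ m ≤ p - 1`. -/
theorem result (p : ℕ) (hp : p.Prime) (hp5 : 5 ≤ p) (f : Equiv.Perm (Fin (p - 1)))
    (hf : IsWelch p f ∨ IsWelch p f.symm) (m : ℕ) (hm : 3 ≤ m) (hmp : m ≤ p - 1)
    (b : Equiv.Perm (Fin m)) (hb : IsCostas b) :
    (distanceVectors f ∩ distanceVectors b).Nonempty := by
  rcases hf with hf | hf
  · exact welch_common hp hp5 f hf hm hmp b hb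
  · obtain ⟨⟨s, t⟩, h1, h2⟩ := welch_common hp hp5 f.symm hf hm hmp b.symm (isCostas_symm hb)
    rcases mem_symm h1 with ⟨h3, h4⟩ | ⟨h3, h4⟩
    · rcases mem_symm h2 with ⟨h5, h6⟩ | ⟨h5, h6⟩
      · exact ⟨_, h4, h6⟩
      · omega
    · rcases mem_symm h2 with ⟨h5, h6⟩ | ⟨h5, h6⟩
      · omega
      · exact ⟨_, h4, h6⟩

end Pool.Agent.Results.MP_61e712_co.WelchArrays
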